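import Pool.Agent.LPW.StmtsE

/-! LPW, row UPC: sum over the classes. -/

set_option autoImplicit false

open Polynomial NumberField
open Pool.Agent.LPW

namespace Pool.Agent.LPW.H80

theorem box_finite (N : ℕ) (S : Set (Fin 2 → ℤ)) (h : ∀ P ∈ S, ∀ i, |P i| ≤ (N : ℤ)) :
    S.Finite := by
  apply (Set.Finite.pi' (fun _ : Fin 2 => Set.finite_Icc (-(N : ℤ)) N)).subset
  intro P hP i
  exact abs_le.mp (h P hP i)

theorem upc : UpcStmt := by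
  classical
  intro hCOV hCUR p hp n r D ε hε
  have hp3 : (p ^ 3 : ℕ) ≠ 0 := pow_ne_zero 3 hp.out.ne_zero
  haveI : NeZero (p ^ 3) := ⟨hp3⟩
  have h1 : ∀ x : (Idx2 n r D → ZMod (p ^ 3)) × (Fin 2 → ZMod (p ^ 3)),
      ∃ (d : ℕ) (B : ℝ), ∀ (f : (MvPolynomial (Fin 2) ℤ)[X])
      (u : Fin r → (MvPolynomial (Fin 2) ℤ)[X]),
      InCls2 p n D (fun s => ((x.1 s).val : ℤ)) f u → ∀ A : Set (Fin 2 → ℤ),
      LineFull f u A → ∀ N : ℕ, 1 ≤ N → ∃ 𝓕 : Finset (MvPolynomial (Fin 2) ℤ),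
        (𝓕.card : ℝ) ≤ B * (N : ℝ) ^ (ε / 2) ∧ (∀ Φ ∈ 𝓕, Φ ≠ 0 ∧ Φ.totalDegree ≤ d) ∧
        ∀ P ∈ A, (∀ i, |P i| ≤ N) → (∀ i, (p : ℤ) ^ 3 ∣ P i - ((x.2 i).val : ℤ)) →
          ExcPt p n (spr2 f P) (fun i => spr2 (u i) P) → ∃ Φ ∈ 𝓕, MvPolynomial.eval P Φ = 0 :=
    fun x => hCOV p n r D (fun s => ((x.1 s).val : ℤ)) (fun i => ((x.2 i).val : ℤ)) (ε / 2)
      (by positivity)
  choose dd BB hcov using h1
  obtain ⟨B₂, hB₂⟩ := hCUR p n r D (∑ x, dd x) (ε / 2) (by positivity)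
  have hval : ∀ z : ℤ, (p : ℤ) ^ 3 ∣ z - (((z : ZMod (p ^ 3)).val : ℕ) : ℤ) := by
    intro z
    have h2 : (((p ^ 3 : ℕ) : ℤ)) ∣ z - (((z : ZMod (p ^ 3)).val : ℕ) : ℤ) := by
      rw [← ZMod.intCast_zmod_eq_zero_iff_dvd]
      push_cast
      rw [ZMod.natCast_zmod_val, sub_self]
    exact_mod_cast h2
  refine ⟨(∑ x, |BB x|) * |B₂|, ?_⟩
  intro f u hfam A hA N hN
  set α : Idx2 n r D → ZMod (p ^ 3) := fun s => ((par2 n D f u s : ℤ) : ZMod (p ^ 3)) with hα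
  have hN1 : (1 : ℝ) ≤ N := by exact_mod_cast hN
  have hN0 : (0 : ℝ) < N := by linarith
  have hcls : ∀ γ : Fin 2 → ZMod (p ^ 3),
      InCls2 p n D (fun s => (((α, γ).1 s).val : ℤ)) f u := fun γ => ⟨hfam, fun s => hval _⟩
  have h3 := fun γ : Fin 2 → ZMod (p ^ 3) => hcov (α, γ) f u (hcls γ) A hA N hN
  choose 𝓕 hcard hdeg hcap using h3
  set G : Finset (MvPolynomial (Fin 2) ℤ) := Finset.univ.biUnion 𝓕 with hG
  set E : Set (Fin 2 → ℤ) := {P : Fin 2 → ℤ | P ∈ A ∧ (∀ i, |P i| ≤ N) ∧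
    ExcPt p n (spr2 f P) (fun i => spr2 (u i) P)} with hE
  set EE : MvPolynomial (Fin 2) ℤ → Set (Fin 2 → ℤ) := fun Φ => {P : Fin 2 → ℤ | P ∈ A ∧
    (∀ i, |P i| ≤ N) ∧ MvPolynomial.eval P Φ = 0 ∧
    ExcPt p n (spr2 f P) (fun i => spr2 (u i) P)} with hEE
  have hEfin : E.Finite := box_finite N E fun P hP => hP.2.1
  have hEEfin : ∀ Φ, (EE Φ).Finite := fun Φ => box_finite N _ fun P hP => hP.2.1
  have hsub : hEfin.toFinset ⊆ G.biUnion (fun Φ => (hEEfin Φ).toFinset) := by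
    intro P hP
    rw [Set.Finite.mem_toFinset] at hP
    obtain ⟨hP1, hP2, hP3⟩ := hP
    obtain ⟨Φ, hΦ, hΦ0⟩ := hcap (fun i => ((P i : ℤ) : ZMod (p ^ 3))) P hP1 hP2
      (fun i => hval _) hP3
    rw [Finset.mem_biUnion]
    refine ⟨Φ, ?_, ?_⟩
    · rw [hG, Finset.mem_biUnion]
      exact ⟨_, Finset.mem_univ _, hΦ⟩
    · rw [Set.Finite.mem_toFinset]
      exact ⟨hP1, hP2, hΦ0, hP3⟩
  have hE1 : E.ncard ≤ ∑ Φ ∈ G, (EE Φ).ncard := by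
    rw [Set.ncard_eq_toFinset_card E hEfin]
    refine (Finset.card_le_card hsub).trans (Finset.card_biUnion_le.trans ?_)
    refine Finset.sum_le_sum fun Φ _ => ?_
    rw [Set.ncard_eq_toFinset_card (EE Φ) (hEEfin Φ)]
  have hE2 : ∀ Φ ∈ G, ((EE Φ).ncard : ℝ) ≤ |B₂| * (N : ℝ) ^ (1 / 2 + ε / 2) := by
    intro Φ hΦ
    rw [hG, Finset.mem_biUnion] at hΦ
    obtain ⟨γ, -, hγ⟩ := hΦ
    obtain ⟨h4, h5⟩ := hdeg γ Φ hγ
    have h6 : Φ.totalDegree ≤ ∑ x, dd x :=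
      h5.trans (Finset.single_le_sum (f := dd) (fun _ _ => Nat.zero_le _) (Finset.mem_univ (α, γ)))
    refine (hB₂ f u hfam A hA Φ h4 h6 N hN).trans ?_
    exact mul_le_mul_of_nonneg_right (le_abs_self _) (by positivity)
  have hGc : (G.card : ℝ) ≤ (∑ x, |BB x|) * (N : ℝ) ^ (ε / 2) := by
    have h7 : (G.card : ℝ) ≤ ∑ γ : Fin 2 → ZMod (p ^ 3), ((𝓕 γ).card : ℝ) := by
      have := Finset.card_biUnion_le (s := Finset.univ) (t := 𝓕)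
      exact_mod_cast this
    refine h7.trans ?_
    rw [Finset.sum_mul]
    calc ∑ γ : Fin 2 → ZMod (p ^ 3), ((𝓕 γ).card : ℝ)
        ≤ ∑ γ : Fin 2 → ZMod (p ^ 3), |BB (α, γ)| * (N : ℝ) ^ (ε / 2) := by
          refine Finset.sum_le_sum fun γ _ => (hcard γ).trans ?_
          exact mul_le_mul_of_nonneg_right (le_abs_self _) (by positivity)
      _ = ∑ x ∈ Finset.univ.image (fun γ : Fin 2 → ZMod (p ^ 3) => (α, γ)),
            |BB x| * (N : ℝ) ^ (ε / 2) := by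
          rw [Finset.sum_image]
          intro x _ y _ hxy
          exact (Prod.mk.inj hxy).2
      _ ≤ ∑ x, |BB x| * (N : ℝ) ^ (ε / 2) :=
          Finset.sum_le_sum_of_subset_of_nonneg (Finset.subset_univ _)
            fun x _ _ => by positivity
  calc (E.ncard : ℝ) ≤ ∑ Φ ∈ G, ((EE Φ).ncard : ℝ) := by exact_mod_cast hE1
    _ ≤ ∑ _Φ ∈ G, |B₂| * (N : ℝ) ^ (1 / 2 + ε / 2) := Finset.sum_le_sum hE2
    _ = (G.card : ℝ) * (|B₂| * (N : ℝ) ^ (1 / 2 + ε / 2)) := by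
        rw [Finset.sum_const, nsmul_eq_mul]
    _ ≤ ((∑ x, |BB x|) * (N : ℝ) ^ (ε / 2)) * (|B₂| * (N : ℝ) ^ (1 / 2 + ε / 2)) :=
        mul_le_mul_of_nonneg_right hGc (by positivity)
    _ = (∑ x, |BB x|) * |B₂| * ((N : ℝ) ^ (ε / 2) * (N : ℝ) ^ (1 / 2 + ε / 2)) := by ring
    _ = (∑ x, |BB x|) * |B₂| * (N : ℝ) ^ (1 / 2 + ε) := by
        rw [← Real.rpow_add hN0]
        congr 2
        ring

end Pool.Agent.LPW.H80
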